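import Pool.Agent.W_MP_cfb63a_co.Main

/-!
# A lower bound for the vertical decomposition of surface arrangements, matching the upper bound

For every `d ≥ 3` there are arrangements of `N` half-hyperplanes in `ℝ^d` whose vertical
decomposition has at least `c N ^ (2 d - 4)` cells. Together with the known upper bound
`O(N ^ (2 d - 4 + ε))` (for `d ≥ 4`) this determines the order of `V_d(N)` up to `N ^ ε`; in
particular `V_5(N) = N ^ (6 + o(1))`.

## The construction

Put `K = d - 2`, number the coordinates from `0` to `d - 1` and let `n` be about `N / (2 K)`. For
each coordinate `c ≥ 2` and each `i < n` take the half-hyperplane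
`{x | x_c = n - i and n W_c ≥ i}` where `W_{d-1} = x_0` and `W_c = n W_{c+1} + x_{c+1} - n`;
moreover the mirror image `{x | - x_c = n - i and n W'_c ≥ i}` where `W'_{d-1} = x_1` and
`W'_c = n W'_{c+1} - x_{c+1} - n`; and the hyperplanes `x_0 = 0`, `x_0 = 1`, `x_1 = 0`, `x_1 = 1`
(and some more hyperplanes `x_0 = -1`, `x_0 = -2`, ... so that there are exactly `N` patches).

Consider the cell of the arrangement which contains the points with `0 < x_0, x_1 < 1` and all
other coordinates `0`. Above the strip `i / n < x_0 < (i + 1) / n` this cell is bounded by the
patch `x_{d-1} = n - i`, and below the strip `j / n < x_1 < (j + 1) / n` by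
`x_{d-1} = - (n - j)`. The relative boundaries of these patches give walls, so that the cell is
cut into `n ^ 2` subcells. For the `(i, j)`-th subcell the part of the patch with coordinate
`c < d - 1` which touches the subcell projects to the same kind of half-hyperplane, with `x_0`
replaced by the residual `n x_0 - i`, which runs through `(0, 1)`, and `x_1` replaced by
`n x_1 - j`. So the same patches are used again above each of the `n ^ 2` subcells, and each of
the `d - 2` steps of the recursion multiplies the number of cells by `n ^ 2`.
-/

set_option autoImplicit false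

namespace Pool.Agent.Results.MP_cfb63a_co.VerticalDecomposition

open Pool.Agent.W_MP_cfb63a_co

/-- For `d ≥ 3` the maximum number of cells of the vertical decomposition of the arrangement of
`N` surface patches of constant description complexity in `ℝ^d` is at least `c N ^ (2 d - 4)`. -/
theorem result (d : ℕ) (hd : 3 ≤ d) (b : ℕ) (hb : 1 ≤ b) :
    ∃ C N₀ : ℕ, 0 < C ∧ ∀ κ : Bool, ∀ N : ℕ, N₀ ≤ N →
      ((N ^ (2 * d - 4) : ℕ) : ℕ∞) ≤ C * maxCells κ b d N :=
  main_bound d hd b hb

end Pool.Agent.Results.MP_cfb63a_co.VerticalDecomposition
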